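import Mathlib
import Pool.Agent.H862R3.Prim.Stmts2

set_option autoImplicit false

namespace Pool.Agent.H878.PV

open Pool.Agent.H862R3.Prim
open scoped commutatorElement

/-- the core of the argument: an endomorphism killing the centralizer and not killing `P`. -/
theorem core {X : Type} [Group X] [Finite X] (P : Subgroup X) (hmin : MinNormal P)
    (hnc : ¬ Comm P) (x : X) (q a : ℕ) (hq : q.Prime) (hx : x ^ q ^ a ∈ P)
    (htop : P ⊔ Subgroup.zpowers x = ⊤) (z : X) (hz : z ∈ Subgroup.centralizer (P : Set X))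
    (hz1 : z ≠ 1) (F : X →* X) (hFz : F z = 1) (c : X) (hc : c ∈ P) (hFc : F c ≠ 1) :
    P ⊔ Subgroup.centralizer (P : Set X) = ⊤ := by
  obtain ⟨hN, hne, hmin'⟩ := hmin
  have hZN : (Subgroup.centralizer (P : Set X)).Normal := by infer_instance
  -- P ⊓ Z = ⊥
  have hPZ : P ⊓ Subgroup.centralizer (P : Set X) = ⊥ := by
    by_contra h
    have h1 := hmin' _ (inferInstance) inf_le_left h
    apply hnc
    intro u hu v hv
    have h2 : u ∈ P ⊓ Subgroup.centralizer (P : Set X) := by rw [h1]; exact hu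
    exact (Subgroup.mem_centralizer_iff.1 h2.2 v hv).symm
  have hzP : z ∉ P := by
    intro h
    have : z ∈ P ⊓ Subgroup.centralizer (P : Set X) := ⟨h, hz⟩
    rw [hPZ] at this
    exact hz1 (Subgroup.mem_bot.1 this)
  -- every element
  have hrep : ∀ g : X, ∃ j : ℤ, ((g : X ⧸ P)) = ((x : X) : X ⧸ P) ^ j := by
    intro g
    have hg : g ∈ (↑(P ⊔ Subgroup.zpowers x) : Set X) := by rw [htop]; trivial
    rw [Subgroup.normal_mul] at hg
    obtain ⟨p, hp, y, hy, rfl⟩ := hg
    obtain ⟨j, rfl⟩ := Subgroup.mem_zpowers_iff.1 hy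
    refine ⟨j, ?_⟩
    have : ((p : X) : X ⧸ P) = 1 := (QuotientGroup.eq_one_iff p).2 hp
    rw [QuotientGroup.mk_mul, QuotientGroup.mk_zpow, this, one_mul]
  have hxq : ((x : X) : X ⧸ P) ^ (q ^ a) = 1 := by
    have := (QuotientGroup.eq_one_iff (N := P) (x ^ q ^ a)).2 hx
    simpa using this
  have hgq : ∀ g : X, ((g : X) : X ⧸ P) ^ (q ^ a) = 1 := by
    intro g
    obtain ⟨j, hj⟩ := hrep g
    rw [hj, ← zpow_natCast, ← zpow_mul, mul_comm, zpow_mul, zpow_natCast, hxq, one_zpow]
  have hcomm : ∀ u v : X, ⁅u, v⁆ ∈ P := by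
    intro u v
    rw [← QuotientGroup.eq_one_iff]
    obtain ⟨i, hi⟩ := hrep u
    obtain ⟨j, hj⟩ := hrep v
    rw [commutatorElement_def, QuotientGroup.mk_mul, QuotientGroup.mk_mul, QuotientGroup.mk_mul,
      QuotientGroup.mk_inv, QuotientGroup.mk_inv, hi, hj]
    have : ((x : X) : X ⧸ P) ^ i * ((x : X) : X ⧸ P) ^ j =
      ((x : X) : X ⧸ P) ^ j * ((x : X) : X ⧸ P) ^ i := (Commute.refl _).zpow_zpow i j
    rw [this]
    group
  have hPP : ⁅P, P⁆ = P := by
    apply hmin' _ (inferInstance) (Subgroup.commutator_le_left P P)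
    intro h
    apply hnc
    rw [Subgroup.commutator_eq_bot_iff_le_centralizer] at h
    intro u hu v hv
    exact (Subgroup.mem_centralizer_iff.1 (h hu) v hv).symm
  have hFP : ∀ p ∈ P, F p ∈ P := by
    intro p hp
    have h1 : P.map F ≤ P := by
      have h2 : P.map F = ⁅P.map F, P.map F⁆ := by
        rw [← Subgroup.map_commutator, hPP]
      rw [h2, Subgroup.commutator_le]
      intro u _ v _
      exact hcomm u v
    exact h1 ⟨p, hp, rfl⟩
  have hinj : ∀ p ∈ P, F p = 1 → p = 1 := by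
    intro p hp h1
    have h2 : F.ker ⊓ P = ⊥ := by
      by_contra h
      have h3 := hmin' _ (inferInstance) inf_le_right h
      have h4 : c ∈ F.ker ⊓ P := by rw [h3]; exact hc
      exact hFc (MonoidHom.mem_ker.1 h4.1)
    have h3 : p ∈ F.ker ⊓ P := ⟨MonoidHom.mem_ker.2 h1, hp⟩
    rw [h2] at h3
    exact Subgroup.mem_bot.1 h3
  -- the exponent of F on the quotient
  obtain ⟨i, hi⟩ := hrep (F x)
  have hFg : ∀ g : X, ((F g : X) : X ⧸ P) = ((g : X) : X ⧸ P) ^ i := by
    intro g
    have hg : g ∈ (↑(P ⊔ Subgroup.zpowers x) : Set X) := by rw [htop]; trivial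
    rw [Subgroup.normal_mul] at hg
    obtain ⟨p, hp, y, hy, rfl⟩ := hg
    obtain ⟨j, rfl⟩ := Subgroup.mem_zpowers_iff.1 hy
    have h1 : ((p : X) : X ⧸ P) = 1 := (QuotientGroup.eq_one_iff p).2 hp
    have h2 : ((F p : X) : X ⧸ P) = 1 := (QuotientGroup.eq_one_iff _).2 (hFP p hp)
    simp only [map_mul, map_zpow]
    rw [QuotientGroup.mk_mul, QuotientGroup.mk_zpow, QuotientGroup.mk_mul, QuotientGroup.mk_zpow,
      h1, h2, hi, one_mul, one_mul, ← zpow_mul, ← zpow_mul, mul_comm]
  have hqi : (q : ℤ) ∣ i := by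
    by_contra h
    have hcop : IsCoprime ((q : ℤ) ^ a) i := by
      apply IsCoprime.pow_left
      exact (Prime.coprime_iff_not_dvd (Nat.prime_iff_prime_int.1 hq)).2 h
    obtain ⟨u, v, huv⟩ := hcop
    have h1 : ((z : X) : X ⧸ P) ^ i = 1 := by
      rw [← hFg z, hFz]
      rfl
    have h2 := hgq z
    have h3 : ((z : X) : X ⧸ P) = 1 := by
      have h4 : ((z : X) : X ⧸ P) ^ (u * (q : ℤ) ^ a + v * i) = 1 := by
        rw [zpow_add, mul_comm u, zpow_mul, mul_comm v, zpow_mul, h1, one_zpow, mul_one]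
        have : ((z : X) : X ⧸ P) ^ ((q : ℤ) ^ a) = 1 := by
          have h5 : ((q : ℤ) ^ a) = ((q ^ a : ℕ) : ℤ) := by push_cast; rfl
          rw [h5, zpow_natCast, h2]
        rw [this, one_zpow]
      rw [huv, zpow_one] at h4
      exact h4
    exact hzP ((QuotientGroup.eq_one_iff z).1 h3)
  have hit : ∀ (n : ℕ) (g : X), ((F^[n] g : X) : X ⧸ P) = ((g : X) : X ⧸ P) ^ (i ^ n) := by
    intro n
    induction n with
    | zero => intro g; simp
    | succ n ih =>
      intro g
      rw [Function.iterate_succ', Function.comp_apply, hFg, ih, ← zpow_mul, pow_succ]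
  have hFa : ∀ g : X, F^[a] g ∈ P := by
    intro g
    rw [← QuotientGroup.eq_one_iff, hit]
    obtain ⟨k, hk⟩ := pow_dvd_pow_of_dvd hqi a
    rw [hk, zpow_mul]
    have h5 : ((q : ℤ) ^ a) = ((q ^ a : ℕ) : ℤ) := by push_cast; rfl
    rw [h5, zpow_natCast, hgq, one_zpow]
  have hFaP : ∀ (n : ℕ) (p : X), p ∈ P → F^[n] p ∈ P := by
    intro n
    induction n with
    | zero => intro p hp; exact hp
    | succ n ih =>
      intro p hp
      rw [Function.iterate_succ', Function.comp_apply]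
      exact hFP _ (ih p hp)
  have hinjn : ∀ (n : ℕ) (p : X), p ∈ P → F^[n] p = 1 → p = 1 := by
    intro n
    induction n with
    | zero => intro p _ h; exact h
    | succ n ih =>
      intro p hp h
      rw [Function.iterate_succ', Function.comp_apply] at h
      exact ih p hp (hinj _ (hFaP n p hp) h)
  have hmul : ∀ (n : ℕ) (u v : X), F^[n] (u * v) = F^[n] u * F^[n] v := by
    intro n
    induction n with
    | zero => intro u v; rfl
    | succ n ih =>
      intro u v
      rw [Function.iterate_succ', Function.comp_apply, Function.comp_apply, Function.comp_apply,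
        ih, map_mul]
  have hone : ∀ n : ℕ, F^[n] (1 : X) = 1 := by
    intro n
    have := hmul n 1 1
    rw [mul_one] at this
    exact (mul_eq_left (a := F^[n] (1 : X))).1 this.symm
  have hinv : ∀ (n : ℕ) (u : X), F^[n] u⁻¹ = (F^[n] u)⁻¹ := by
    intro n u
    rw [eq_inv_iff_mul_eq_one, ← hmul, inv_mul_cancel, hone]
  -- surjectivity on P
  have hsurj : ∀ y ∈ P, ∃ p ∈ P, F^[a] p = y := by
    let f : P → P := fun p => ⟨F^[a] p.1, hFaP a p.1 p.2⟩
    have hf : Function.Injective f := by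
      intro u v huv
      have h1 : F^[a] u.1 = F^[a] v.1 := congrArg Subtype.val huv
      have h2 : F^[a] (u.1 * v.1⁻¹) = 1 := by
        rw [hmul, hinv, h1, mul_inv_cancel]
      have h3 := hinjn a _ (P.mul_mem u.2 (P.inv_mem v.2)) h2
      exact Subtype.ext (mul_inv_eq_one.1 h3)
    have hs : Function.Surjective f := Finite.surjective_of_injective hf
    intro y hy
    obtain ⟨p, hp⟩ := hs ⟨y, hy⟩
    exact ⟨p.1, p.2, congrArg Subtype.val hp⟩
  -- the kernel of the iterate commutes with P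
  have hker : ∀ k : X, F^[a] k = 1 → k ∈ Subgroup.centralizer (P : Set X) := by
    intro k hk
    rw [Subgroup.mem_centralizer_iff]
    intro p hp
    have h1 : p * k * p⁻¹ * k⁻¹ ∈ P := by
      have : p * k * p⁻¹ * k⁻¹ = p * (k * p⁻¹ * k⁻¹) := by group
      rw [this]
      exact P.mul_mem hp (hN.conj_mem _ (P.inv_mem hp) k)
    have h2 : F^[a] (p * k * p⁻¹ * k⁻¹) = 1 := by
      rw [hmul, hmul, hmul, hinv, hinv, hk]
      simp
    have h3 := hinjn a _ h1 h2
    have h4 : p * k = k * p := by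
      calc p * k = (p * k * p⁻¹ * k⁻¹) * (k * p) := by group
        _ = k * p := by rw [h3, one_mul]
    exact h4
  rw [eq_top_iff]
  intro g _
  obtain ⟨p, hp, hpg⟩ := hsurj _ (hFa g)
  have h1 : p⁻¹ * g ∈ Subgroup.centralizer (P : Set X) := by
    apply hker
    rw [hmul, hinv, hpg, inv_mul_cancel]
  have h2 : g = p * (p⁻¹ * g) := by group
  rw [h2]
  exact Subgroup.mul_mem_sup hp h1

theorem taskN3 : TaskN3 := by
  intro hsep W hW X _ _ hX P hP hnc x q a hq hx htop
  by_cases hZ : Subgroup.centralizer (P : Set X) = ⊥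
  · exact Or.inl hZ
  right
  obtain ⟨hN, hne, hmin'⟩ := id hP
  have hZN : (Subgroup.centralizer (P : Set X)).Normal := by infer_instance
  obtain ⟨z, hz, hz1⟩ : ∃ z : X, z ∈ Subgroup.centralizer (P : Set X) ∧ z ≠ 1 := by
    obtain ⟨z, hz⟩ := Subgroup.ne_bot_iff_exists_ne_one.1 hZ
    exact ⟨z.1, z.2, fun h => hz (Subtype.ext h)⟩
  obtain ⟨c, hc, hc1⟩ : ∃ z : X, z ∈ P ∧ z ≠ 1 := by
    obtain ⟨z, hz⟩ := Subgroup.ne_bot_iff_exists_ne_one.1 hne
    exact ⟨z.1, z.2, fun h => hz (Subtype.ext h)⟩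
  have hPZ : P ⊓ Subgroup.centralizer (P : Set X) = ⊥ := by
    by_contra h
    have h1 := hmin' _ (inferInstance) inf_le_left h
    apply hnc
    intro u hu v hv
    have h2 : u ∈ P ⊓ Subgroup.centralizer (P : Set X) := by rw [h1]; exact hu
    exact (Subgroup.mem_centralizer_iff.1 h2.2 v hv).symm
  have hcZ : c ∉ Subgroup.centralizer (P : Set X) := by
    intro h
    have : c ∈ P ⊓ Subgroup.centralizer (P : Set X) := ⟨hc, h⟩
    rw [hPZ] at this
    exact hc1 (Subgroup.mem_bot.1 this)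
  let s : X × X →* X ⧸ Subgroup.centralizer (P : Set X) :=
    (QuotientGroup.mk' (Subgroup.centralizer (P : Set X))).comp (MonoidHom.fst X X)
  have hs : Function.Surjective s := by
    intro y
    obtain ⟨g, rfl⟩ := QuotientGroup.mk'_surjective _ y
    exact ⟨(g, 1), rfl⟩
  have h := hsep W hW X (X ⧸ Subgroup.centralizer (P : Set X)) s hs hX
    (QuotientGroup.mk' (Subgroup.centralizer (P : Set X)) c)
  have h' : ¬ ∀ F : (X ⧸ Subgroup.centralizer (P : Set X)) →* X,
      F (QuotientGroup.mk' (Subgroup.centralizer (P : Set X)) c) = 1 := by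
    intro hF
    have := h hF
    exact hcZ ((QuotientGroup.eq_one_iff c).1 this)
  push Not at h'
  obtain ⟨F0, hF0⟩ := h'
  refine core P hP hnc x q a hq hx htop z hz hz1
    (F0.comp (QuotientGroup.mk' (Subgroup.centralizer (P : Set X)))) ?_ c hc hF0
  have : QuotientGroup.mk' (Subgroup.centralizer (P : Set X)) z = 1 :=
    (QuotientGroup.eq_one_iff z).2 hz
  rw [MonoidHom.comp_apply, this, map_one]

end Pool.Agent.H878.PV
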